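import Pool.Agent.Results.MP_3c016c_gt.DimensionTwo

/-!
The open Moebius band in `ℝ³`: the map
`(θ, t) ↦ ((1 + t cos θ + t²) e^{2iθ}, t sin θ)`, `|t| < 1/2`, with period `(θ, t) ↦ (θ + π, -t)`.
-/

namespace Pool.Agent.H80R3.Mob.Band

open scoped Manifold ContDiff
open Set Topology Module
open Pool.Agent.Results.MP_794fdb_gt.OrientableSurfaces
open Pool.Agent.Results.MP_3c016c_gt.DimensionTwo

noncomputable section

/-- width parameter -/
def tt (p : Eu 2) : ℝ := Real.arctan (p 1) / Real.pi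

/-- radius -/
def rr (p : Eu 2) : ℝ := 1 + tt p * Real.cos (Real.pi * p 0) + tt p ^ 2

/-- the band -/
def mob (p : Eu 2) : Eu 3 :=
  !₂[rr p * Real.cos (2 * (Real.pi * p 0)), rr p * Real.sin (2 * (Real.pi * p 0)),
    tt p * Real.sin (Real.pi * p 0)]

lemma abs_tt (p : Eu 2) : |tt p| < 1 / 2 := by
  unfold tt
  have h1 := Real.arctan_lt_pi_div_two (p 1)
  have h2 := Real.neg_pi_div_two_lt_arctan (p 1)
  have hp := Real.pi_pos
  rw [abs_div, abs_of_pos hp, div_lt_iff₀ hp, abs_lt]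
  constructor <;> linarith

lemma tc_bound (p : Eu 2) : |tt p * Real.cos (Real.pi * p 0)| < 1 / 2 := by
  rw [abs_mul]
  have h1 := abs_tt p
  have h2 := Real.abs_cos_le_one (Real.pi * p 0)
  calc |tt p| * |Real.cos (Real.pi * p 0)| ≤ |tt p| * 1 := by gcongr
    _ < 1 / 2 := by linarith

lemma rr_pos (p : Eu 2) : 0 < rr p := by
  unfold rr
  have := (abs_lt.mp (tc_bound p)).1
  nlinarith [sq_nonneg (tt p)]

lemma tt_contDiff : ContDiff ℝ ∞ tt := by
  unfold tt
  exact (Real.contDiff_arctan.comp (coord_contDiff 1)).div_const _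

lemma rr_contDiff : ContDiff ℝ ∞ rr := by
  unfold rr
  have h0 : ContDiff ℝ ∞ (fun p : Eu 2 => Real.cos (Real.pi * p 0)) :=
    Real.contDiff_cos.comp (contDiff_const.mul (coord_contDiff 0))
  exact (contDiff_const.add (tt_contDiff.mul h0)).add (tt_contDiff.pow 2)

lemma mob_contDiff : ContDiff ℝ ∞ mob := by
  unfold mob
  have h0 := coord_contDiff 0
  rw [contDiff_euclidean]
  intro i
  fin_cases i
  · exact rr_contDiff.mul (Real.contDiff_cos.comp (contDiff_const.mul (contDiff_const.mul h0)))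
  · exact rr_contDiff.mul (Real.contDiff_sin.comp (contDiff_const.mul (contDiff_const.mul h0)))
  · exact tt_contDiff.mul (Real.contDiff_sin.comp (contDiff_const.mul h0))

lemma trig_shift (k : ℤ) (x : ℝ) : Real.cos (Real.pi * (x + k)) = (-1) ^ k * Real.cos (Real.pi * x) ∧
    Real.sin (Real.pi * (x + k)) = (-1) ^ k * Real.sin (Real.pi * x) := by
  rw [show Real.pi * (x + k) = Real.pi * x + k * Real.pi by ring, Real.cos_add_int_mul_pi,
    Real.sin_add_int_mul_pi]
  exact ⟨rfl, rfl⟩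

lemma sq_pm (k : ℤ) : ((-1 : ℝ) ^ k) * ((-1 : ℝ) ^ k) = 1 := by
  rw [← mul_zpow]; norm_num

lemma tt_pm (k : ℤ) (p q : Eu 2) (h : q 1 = (-1 : ℝ) ^ k * p 1) : tt q = (-1 : ℝ) ^ k * tt p := by
  unfold tt
  rcases Int.even_or_odd k with hk | hk
  · rw [hk.neg_one_zpow, one_mul] at h ⊢
    rw [h]
  · rw [hk.neg_one_zpow, neg_one_mul] at h ⊢
    rw [h, Real.arctan_neg, neg_div]

lemma mob_glide {p q : Eu 2} (h : GlideRel p q) : mob p = mob q := by
  obtain ⟨k, h0, h1⟩ := h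
  have ht := tt_pm k p q h1
  obtain ⟨hc, hs⟩ := trig_shift k (p 0)
  have hk := sq_pm k
  have hr : rr q = rr p := by
    unfold rr
    rw [ht, h0, hc]
    linear_combination (tt p * Real.cos (Real.pi * p 0) + tt p ^ 2) * hk
  have e1 : 2 * (Real.pi * q 0) = 2 * (Real.pi * p 0) + k * (2 * Real.pi) := by rw [h0]; ring
  unfold mob
  rw [hr, e1, Real.cos_add_int_mul_two_pi, Real.sin_add_int_mul_two_pi, ht, h0, hs]
  ext i
  fin_cases i
  · simp
  · simp
  · simp
    linear_combination (-(tt p * Real.sin (Real.pi * p 0))) * hk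

/-! derivative -/

lemma fderiv_mob (p a : Eu 2) : ∃ dt dr : ℝ,
    dt = a 1 / (Real.pi * (1 + p 1 ^ 2)) ∧
    dr = (Real.cos (Real.pi * p 0) + 2 * tt p) * dt -
      tt p * (Real.pi * a 0 * Real.sin (Real.pi * p 0)) ∧
    fderiv ℝ mob p a 0 = dr * Real.cos (2 * (Real.pi * p 0)) -
      rr p * (2 * (Real.pi * a 0)) * Real.sin (2 * (Real.pi * p 0)) ∧
    fderiv ℝ mob p a 1 = dr * Real.sin (2 * (Real.pi * p 0)) +
      rr p * (2 * (Real.pi * a 0)) * Real.cos (2 * (Real.pi * p 0)) ∧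
    fderiv ℝ mob p a 2 = dt * Real.sin (Real.pi * p 0) +
      tt p * (Real.pi * a 0 * Real.cos (Real.pi * p 0)) := by
  have h0 : HasFDerivAt (fun u : Eu 2 => u 0) (EuclideanSpace.proj 0 : Eu 2 →L[ℝ] ℝ) p :=
    (EuclideanSpace.proj 0 : Eu 2 →L[ℝ] ℝ).hasFDerivAt
  have h1 : HasFDerivAt (fun u : Eu 2 => u 1) (EuclideanSpace.proj 1 : Eu 2 →L[ℝ] ℝ) p :=
    (EuclideanSpace.proj 1 : Eu 2 →L[ℝ] ℝ).hasFDerivAt
  have ht : HasFDerivAt tt _ p := (h1.arctan).mul_const Real.pi⁻¹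
  have hc := (h0.const_mul Real.pi).cos
  have hs := (h0.const_mul Real.pi).sin
  have hc2 := ((h0.const_mul Real.pi).const_mul 2).cos
  have hs2 := ((h0.const_mul Real.pi).const_mul 2).sin
  have hr : HasFDerivAt rr _ p := ((ht.mul hc).const_add 1).add (ht.pow 2)
  have hv : HasFDerivAt mob (fderiv ℝ mob p) p :=
    (mob_contDiff.differentiable (by simp) p).hasFDerivAt
  have hvi : ∀ i : Fin 3, HasFDerivAt (fun u => mob u i)
      ((EuclideanSpace.proj i : Eu 3 →L[ℝ] ℝ).comp (fderiv ℝ mob p)) p := fun i =>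
    (EuclideanSpace.proj i : Eu 3 →L[ℝ] ℝ).hasFDerivAt.comp p hv
  have e0 := (hvi 0).unique (hr.mul hc2)
  have e1 := (hvi 1).unique (hr.mul hs2)
  have e2 := (hvi 2).unique (ht.mul hs)
  have f0 := congrArg (fun T : Eu 2 →L[ℝ] ℝ => T a) e0
  have f1 := congrArg (fun T : Eu 2 →L[ℝ] ℝ => T a) e1
  have f2 := congrArg (fun T : Eu 2 →L[ℝ] ℝ => T a) e2
  simp at f0 f1 f2
  have hp : (1 + p 1 ^ 2) ≠ 0 := by positivity
  refine ⟨_, _, rfl, rfl, ?_, ?_, ?_⟩
  · rw [f0]; field_simp; ring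
  · rw [f1]; field_simp; ring
  · rw [f2]; field_simp; ring

/-- horizontal part of the derivative -/
lemma deriv_horizontal (p a : Eu 2) (h0 : fderiv ℝ mob p a 0 = 0) (h1 : fderiv ℝ mob p a 1 = 0) :
    a 0 = 0 ∧ (Real.cos (Real.pi * p 0) + 2 * tt p) * a 1 = 0 := by
  obtain ⟨dt, dr, hdt, hdr, e0, e1, -⟩ := fderiv_mob p a
  rw [h0] at e0
  rw [h1] at e1
  have hcs := Real.sin_sq_add_cos_sq (2 * (Real.pi * p 0))
  set c := Real.cos (2 * (Real.pi * p 0))
  set s := Real.sin (2 * (Real.pi * p 0))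
  have hr := (rr_pos p).ne'
  have g0 : dr = 0 := by
    have : dr * (s ^ 2 + c ^ 2) = 0 := by linear_combination -c * e0 - s * e1
    rwa [hcs, mul_one] at this
  have g1 : a 0 = 0 := by
    have : (rr p * (2 * Real.pi)) * a 0 * (s ^ 2 + c ^ 2) = 0 := by
      linear_combination s * e0 - c * e1
    rw [hcs, mul_one] at this
    exact (mul_eq_zero.mp this).resolve_left (mul_ne_zero hr (by positivity))
  refine ⟨g1, ?_⟩
  rw [g0, g1] at hdr
  have hp : Real.pi * (1 + p 1 ^ 2) ≠ 0 := by positivity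
  rw [hdt] at hdr
  have h2 : (Real.cos (Real.pi * p 0) + 2 * tt p) * (a 1 / (Real.pi * (1 + p 1 ^ 2))) = 0 := by
    linear_combination -hdr
  rw [← mul_div_assoc, div_eq_zero_iff] at h2
  exact h2.resolve_right hp

lemma mob_immersion (p a : Eu 2) (h : fderiv ℝ mob p a = 0) : a = 0 := by
  have h0 : fderiv ℝ mob p a 0 = 0 := by rw [h]; rfl
  have h1 : fderiv ℝ mob p a 1 = 0 := by rw [h]; rfl
  have h2 : fderiv ℝ mob p a 2 = 0 := by rw [h]; rfl
  obtain ⟨g0, g1⟩ := deriv_horizontal p a h0 h1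
  obtain ⟨dt, dr, hdt, -, -, -, e2⟩ := fderiv_mob p a
  rw [h2, g0, hdt] at e2
  have hp : Real.pi * (1 + p 1 ^ 2) ≠ 0 := by positivity
  have e3 : Real.sin (Real.pi * p 0) * a 1 = 0 := by
    have : (Real.sin (Real.pi * p 0) * a 1) / (Real.pi * (1 + p 1 ^ 2)) = 0 := by
      rw [mul_div_assoc]; linear_combination -e2
    rw [div_eq_zero_iff] at this
    exact this.resolve_right hp
  have g2 : a 1 = 0 := by
    by_contra hne
    have hs := (mul_eq_zero.mp e3).resolve_right hne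
    have hc := (mul_eq_zero.mp g1).resolve_right hne
    have hcs := Real.sin_sq_add_cos_sq (Real.pi * p 0)
    rw [hs] at hcs
    have ht := abs_lt.mp (abs_tt p)
    have hc' : Real.cos (Real.pi * p 0) = -(2 * tt p) := by linarith
    rw [hc'] at hcs
    nlinarith [ht.1, ht.2]
  ext i
  fin_cases i
  · simpa using g0
  · simpa using g2

lemma tt_inj {p q : Eu 2} (h : tt p = tt q) : p 1 = q 1 := by
  unfold tt at h
  have := (div_left_inj' Real.pi_ne_zero).mp h
  exact Real.arctan_injective this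

/-- No other point on the vertical line of a fold point. -/
lemma vertical {p q : Eu 2} (h0 : mob p 0 = mob q 0) (h1 : mob p 1 = mob q 1)
    (hf : Real.cos (Real.pi * p 0) + 2 * tt p = 0) : GlideRel p q := by
  simp only [mob] at h0 h1
  simp at h0 h1
  have hp := rr_pos p
  have hq := rr_pos q
  have hcp := Real.sin_sq_add_cos_sq (2 * (Real.pi * p 0))
  have hcq := Real.sin_sq_add_cos_sq (2 * (Real.pi * q 0))
  have hsq : rr p ^ 2 = rr q ^ 2 := by
    have e1 : rr p ^ 2 * (Real.sin (2 * (Real.pi * p 0)) ^ 2 + Real.cos (2 * (Real.pi * p 0)) ^ 2) =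
      rr q ^ 2 * (Real.sin (2 * (Real.pi * q 0)) ^ 2 + Real.cos (2 * (Real.pi * q 0)) ^ 2) := by
      linear_combination (rr p * Real.cos (2 * (Real.pi * p 0)) +
        rr q * Real.cos (2 * (Real.pi * q 0))) * h0 +
        (rr p * Real.sin (2 * (Real.pi * p 0)) + rr q * Real.sin (2 * (Real.pi * q 0))) * h1
    rwa [hcp, hcq, mul_one, mul_one] at e1
  have hr : rr p = rr q := by
    rcases sq_eq_sq_iff_eq_or_eq_neg.mp hsq with h | h
    · exact h
    · linarith
  rw [hr] at h0 h1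
  have g0 := mul_left_cancel₀ hq.ne' h0
  have g1 := mul_left_cancel₀ hq.ne' h1
  have hcos : Real.cos (2 * (Real.pi * q 0) - 2 * (Real.pi * p 0)) = 1 := by
    rw [Real.cos_sub, g0, g1]
    nlinarith [Real.sin_sq_add_cos_sq (2 * (Real.pi * q 0))]
  obtain ⟨k, hk⟩ := (Real.cos_eq_one_iff _).mp hcos
  have hk0 : q 0 = p 0 + k := by
    have : Real.pi * (q 0 - p 0) = Real.pi * k := by linarith
    have := mul_left_cancel₀ Real.pi_ne_zero this
    linarith
  refine ⟨k, hk0, ?_⟩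
  obtain ⟨hc, -⟩ := trig_shift k (p 0)
  have hkk := sq_pm k
  unfold rr at hr
  rw [hk0, hc] at hr
  -- (ε t_q - t_p) (c + ε t_q + t_p) = 0
  have e2 : ((-1 : ℝ) ^ k * tt q - tt p) ^ 2 = 0 := by
    have e3 : Real.cos (Real.pi * p 0) = -(2 * tt p) := by linarith
    rw [e3] at hr
    linear_combination (-1) * hr + tt q ^ 2 * hkk
  have e4 : (-1 : ℝ) ^ k * tt q = tt p := by
    have := pow_eq_zero_iff (two_ne_zero) |>.mp e2
    linarith
  have e5 : tt q = (-1 : ℝ) ^ k * tt p := by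
    rw [← e4, ← mul_assoc, hkk, one_mul]
  -- from tt to the second coordinate
  let p' : Eu 2 := !₂[q 0, (-1 : ℝ) ^ k * p 1]
  have e6 : tt p' = (-1 : ℝ) ^ k * tt p := tt_pm k p p' (by simp [p'])
  have e7 := tt_inj (p := q) (q := p') (by rw [e5, e6])
  simpa [p'] using e7

/-! the local section -/

open Complex in
/-- horizontal part as a complex number -/
def Cc (v : Eu 3) : ℂ := (v 0 : ℂ) + (v 1 : ℂ) * I

/-- the square of the width parameter -/
def Tq (v : Eu 3) : ℝ := ((2 * ‖Cc v‖ - 1) -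
  Real.sqrt ((2 * ‖Cc v‖ - 1) ^ 2 - 4 * (v 2 ^ 2 + (‖Cc v‖ - 1) ^ 2))) / 2

/-- `t e^{iθ}` -/
def Ww (v : Eu 3) : ℂ := ((‖Cc v‖ - 1 - Tq v : ℝ) : ℂ) + (v 2 : ℂ) * Complex.I

/-- the angle -/
def Th (θ : ℝ) (v : Eu 3) : ℝ := θ + (Cc v * Complex.exp (-(2 * θ : ℝ) * Complex.I)).arg / 2

/-- the width -/
def Ts (θ : ℝ) (v : Eu 3) : ℝ := (Ww v * Complex.exp (-(Th θ v : ℂ) * Complex.I)).re

/-- the section -/
def Sg (θ : ℝ) (v : Eu 3) : Eu 2 := !₂[Th θ v / Real.pi, Real.tan (Real.pi * Ts θ v)]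

lemma Cc_mob (p : Eu 2) : Cc (mob p) = (rr p : ℂ) * Complex.exp ((2 * (Real.pi * p 0) : ℝ) * Complex.I) := by
  unfold Cc mob
  rw [Complex.exp_mul_I, ← Complex.ofReal_cos, ← Complex.ofReal_sin]
  simp
  ring

lemma norm_Cc_mob (p : Eu 2) : ‖Cc (mob p)‖ = rr p := by
  rw [Cc_mob, norm_mul, Complex.norm_exp_ofReal_mul_I, mul_one, Complex.norm_real,
    Real.norm_of_nonneg (rr_pos p).le]

lemma Tq_mob (p : Eu 2) : Tq (mob p) = tt p ^ 2 := by
  unfold Tq
  rw [norm_Cc_mob]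
  have h2 : mob p 2 = tt p * Real.sin (Real.pi * p 0) := by simp [mob]
  rw [h2]
  have hcs := Real.sin_sq_add_cos_sq (Real.pi * p 0)
  have hb := abs_lt.mp (tc_bound p)
  have h3 : (2 * rr p - 1) ^ 2 - 4 * ((tt p * Real.sin (Real.pi * p 0)) ^ 2 + (rr p - 1) ^ 2) =
      (1 + 2 * (tt p * Real.cos (Real.pi * p 0))) ^ 2 := by
    unfold rr
    linear_combination (-4 * tt p ^ 2) * hcs
  rw [h3, Real.sqrt_sq (by linarith)]
  unfold rr
  ring

lemma Ww_mob (p : Eu 2) : Ww (mob p) = (tt p : ℂ) * Complex.exp ((Real.pi * p 0 : ℝ) * Complex.I) := by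
  unfold Ww
  rw [norm_Cc_mob, Tq_mob, Complex.exp_mul_I, ← Complex.ofReal_cos, ← Complex.ofReal_sin]
  have h2 : mob p 2 = tt p * Real.sin (Real.pi * p 0) := by simp [mob]
  rw [h2]
  unfold rr
  push_cast
  ring

lemma Th_mob (θ : ℝ) (p : Eu 2) : ∃ n : ℤ, Th θ (mob p) = Real.pi * p 0 + n * Real.pi := by
  unfold Th
  set z : ℂ := Cc (mob p) * Complex.exp (-(2 * θ : ℝ) * Complex.I) with hz
  have hz1 : z = (rr p : ℂ) * Complex.exp ((2 * (Real.pi * p 0) - 2 * θ : ℝ) * Complex.I) := by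
    rw [hz, Cc_mob, mul_assoc, ← Complex.exp_add]
    congr 2
    push_cast
    ring
  have hz2 : ‖z‖ = rr p := by
    rw [hz1, norm_mul, Complex.norm_exp_ofReal_mul_I, mul_one, Complex.norm_real,
      Real.norm_of_nonneg (rr_pos p).le]
  have hz3 := Complex.norm_mul_exp_arg_mul_I z
  rw [hz2] at hz3
  have hr : (rr p : ℂ) ≠ 0 := by exact_mod_cast (rr_pos p).ne'
  have hz4 := mul_left_cancel₀ hr (hz3.trans hz1)
  obtain ⟨n, hn⟩ := Complex.exp_eq_exp_iff_exists_int.mp hz4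
  refine ⟨n, ?_⟩
  have h5 : ((z.arg : ℝ) : ℂ) = ((2 * (Real.pi * p 0) - 2 * θ + n * (2 * Real.pi) : ℝ) : ℂ) := by
    have h6 : (z.arg : ℂ) * Complex.I =
        ((2 * (Real.pi * p 0) - 2 * θ + n * (2 * Real.pi) : ℝ) : ℂ) * Complex.I := by
      rw [hn]; push_cast; ring
    exact mul_right_cancel₀ Complex.I_ne_zero h6
  have h6 : z.arg = 2 * (Real.pi * p 0) - 2 * θ + n * (2 * Real.pi) := by exact_mod_cast h5
  rw [h6]
  ring

lemma Ts_mob (θ : ℝ) (p : Eu 2) (n : ℤ) (h : Th θ (mob p) = Real.pi * p 0 + n * Real.pi) :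
    Ts θ (mob p) = (-1 : ℝ) ^ n * tt p := by
  unfold Ts
  rw [Ww_mob, mul_assoc, ← Complex.exp_add, h]
  have e : ((Real.pi * p 0 : ℝ) : ℂ) * Complex.I +
      -((Real.pi * p 0 + n * Real.pi : ℝ) : ℂ) * Complex.I = ((-(n * Real.pi) : ℝ) : ℂ) * Complex.I := by
    push_cast; ring
  rw [e, Complex.re_ofReal_mul, Complex.exp_ofReal_mul_I_re, Real.cos_neg, Real.cos_int_mul_pi]
  ring

lemma Sg_rel (θ : ℝ) (p : Eu 2) : GlideRel p (Sg θ (mob p)) := by
  obtain ⟨n, hn⟩ := Th_mob θ p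
  refine ⟨n, ?_, ?_⟩
  · simp only [Sg]
    rw [hn]
    simp
    field_simp
  · simp only [Sg]
    rw [Ts_mob θ p n hn]
    simp
    rcases Int.even_or_odd n with hk | hk
    · rw [hk.neg_one_zpow, one_mul, one_mul]
      unfold tt
      rw [mul_div_cancel₀ _ Real.pi_ne_zero, Real.tan_arctan]
    · rw [hk.neg_one_zpow, neg_one_mul, neg_one_mul]
      unfold tt
      rw [mul_neg, mul_div_cancel₀ _ Real.pi_ne_zero, Real.tan_neg, Real.tan_arctan]

lemma Th_self (p : Eu 2) : Th (Real.pi * p 0) (mob p) = Real.pi * p 0 := by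
  unfold Th
  have : Cc (mob p) * Complex.exp (-(2 * (Real.pi * p 0) : ℝ) * Complex.I) = (rr p : ℂ) := by
    rw [Cc_mob, mul_assoc, ← Complex.exp_add]
    simp
  rw [this, Complex.arg_ofReal_of_nonneg (rr_pos p).le]
  simp

lemma Sg_self (p : Eu 2) : Sg (Real.pi * p 0) (mob p) = p := by
  have h1 := Th_self p
  have h2 := Ts_mob (Real.pi * p 0) p 0 (by rw [h1]; simp)
  rw [zpow_zero, one_mul] at h2
  ext i
  fin_cases i
  · simp only [Sg]
    rw [h1]
    simp
  · simp only [Sg]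
    rw [h2]
    simp [tt]
    rw [mul_div_cancel₀ _ Real.pi_ne_zero, Real.tan_arctan]

lemma coord3 (i : Fin 3) : Continuous (fun v : Eu 3 => v i) :=
  (EuclideanSpace.proj i : Eu 3 →L[ℝ] ℝ).continuous

lemma Cc_cont : Continuous Cc := by
  unfold Cc
  have h0 := coord3 0
  have h1 := coord3 1
  fun_prop

lemma Tq_cont : Continuous Tq := by
  unfold Tq
  have h0 := Cc_cont
  have h1 := coord3 2
  fun_prop

lemma Ww_cont : Continuous Ww := by
  unfold Ww
  have h0 := Cc_cont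
  have h1 := coord3 2
  have h2 := Tq_cont
  fun_prop

lemma Sg_cont (p : Eu 2) : ContinuousAt (Sg (Real.pi * p 0)) (mob p) := by
  have hC : ContinuousAt (fun v => Cc v * Complex.exp (-(2 * (Real.pi * p 0) : ℝ) * Complex.I))
      (mob p) := (Cc_cont.mul continuous_const).continuousAt
  have hT : ContinuousAt (Th (Real.pi * p 0)) (mob p) := by
    unfold Th
    refine continuousAt_const.add (ContinuousAt.div_const ?_ 2)
    refine ContinuousAt.comp' (g := Complex.arg) ?_ hC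
    apply Complex.continuousAt_arg
    have : Cc (mob p) * Complex.exp (-(2 * (Real.pi * p 0) : ℝ) * Complex.I) = (rr p : ℂ) := by
      rw [Cc_mob, mul_assoc, ← Complex.exp_add]
      simp
    rw [this]
    exact Complex.ofReal_mem_slitPlane.mpr (rr_pos p)
  have hS : ContinuousAt (Ts (Real.pi * p 0)) (mob p) := by
    unfold Ts
    refine Complex.continuous_re.continuousAt.comp' (Ww_cont.continuousAt.mul ?_)
    refine Complex.continuous_exp.continuousAt.comp' ?_
    exact ((Complex.continuous_ofReal.continuousAt.comp' hT).neg).mul continuousAt_const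
  have h1 := Th_self p
  have h2 := Ts_mob (Real.pi * p 0) p 0 (by rw [h1]; simp)
  rw [zpow_zero, one_mul] at h2
  have hR : ContinuousAt (fun v => Real.tan (Real.pi * Ts (Real.pi * p 0) v)) (mob p) := by
    refine ContinuousAt.comp' (g := Real.tan) ?_ (continuousAt_const.mul hS)
    rw [Real.continuousAt_tan, h2]
    unfold tt
    rw [mul_div_cancel₀ _ Real.pi_ne_zero]
    exact (Real.cos_arctan_pos _).ne'
  unfold Sg
  refine (PiLp.continuous_toLp 2 _).continuousAt.comp' ?_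
  rw [continuousAt_pi]
  intro i
  fin_cases i
  · exact hT.div_const _
  · exact hR

end

end Pool.Agent.H80R3.Mob.Band
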