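import Pool.Agent.H80R3.Mob.Obs

set_option autoImplicit false

namespace Pool.Agent.H80R3.Mob

open Pool.Agent.H73W InnerProductSpace
open scoped RealInnerProductSpace

theorem gs_def {n : ℕ} (f : Fin n → V9) (k : Fin n) : gramSchmidt ℝ f k = f k -
    ∑ i ∈ Finset.Iio k, (⟪gramSchmidt ℝ f i, f k⟫ / ‖gramSchmidt ℝ f i‖ ^ 2) •
      gramSchmidt ℝ f i := by
  have := gramSchmidt_def'' ℝ f k
  rw [eq_sub_iff_add_eq]
  exact this.symm

theorem gs_sign {n : ℕ} (f : Fin n → V9) (s : Fin n → ℝ) (hs : ∀ i, s i * s i = 1) (k : Fin n) :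
    gramSchmidt ℝ (fun i => s i • f i) k = s k • gramSchmidt ℝ f k := by
  induction k using WellFoundedLT.induction with
  | ind k ih =>
    rw [gs_def, gs_def f k, smul_sub, Finset.smul_sum]
    congr 1
    apply Finset.sum_congr rfl
    intro i hi
    rw [ih i (Finset.mem_Iio.mp hi), norm_smul, mul_pow, Real.norm_eq_abs, sq_abs, inner_smul_left,
      inner_smul_right, smul_smul, smul_smul]
    have h1 : s i ^ 2 = 1 := by rw [sq, hs]
    rw [h1, one_mul]
    congr 1
    simp only [RCLike.conj_to_real]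
    have h2 := hs i
    calc s i * (s k * ⟪gramSchmidt ℝ f i, f k⟫) / ‖gramSchmidt ℝ f i‖ ^ 2 * s i
        = (s i * s i) * (s k * (⟪gramSchmidt ℝ f i, f k⟫ / ‖gramSchmidt ℝ f i‖ ^ 2)) := by ring
      _ = _ := by rw [h2, one_mul]

theorem gsn_sign {n : ℕ} (f : Fin n → V9) (s : Fin n → ℝ) (hs : ∀ i, s i * s i = 1) (k : Fin n) :
    gramSchmidtNormed ℝ (fun i => s i • f i) k = s k • gramSchmidtNormed ℝ f k := by
  unfold gramSchmidtNormed
  rw [gs_sign f s hs, norm_smul, smul_smul, smul_smul]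
  have h1 : ‖s k‖ = 1 := by
    have h2 : ‖s k‖ * ‖s k‖ = 1 := by rw [← norm_mul, hs, norm_one]
    nlinarith [norm_nonneg (s k)]
  rw [h1, one_mul, mul_comm]

theorem gs_cont {n : ℕ} {X : Type*} [TopologicalSpace X] {K : Set X} (f : X → Fin n → V9)
    (hf : ContinuousOn f K) (hli : ∀ x ∈ K, LinearIndependent ℝ (f x)) (k : Fin n) :
    ContinuousOn (fun x => gramSchmidt ℝ (f x) k) K := by
  induction k using WellFoundedLT.induction with
  | ind k ih =>
    have e : (fun x => gramSchmidt ℝ (f x) k) = fun x => f x k -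
      ∑ i ∈ Finset.Iio k, (⟪gramSchmidt ℝ (f x) i, f x k⟫ / ‖gramSchmidt ℝ (f x) i‖ ^ 2) •
      gramSchmidt ℝ (f x) i := by
      funext x; exact gs_def _ _
    rw [e]
    have hfn := (continuousOn_pi.mp hf) k
    apply hfn.sub
    apply continuousOn_finsetSum
    intro i hi
    have hi' := ih i (Finset.mem_Iio.mp hi)
    have hc : ContinuousOn (fun x => ⟪gramSchmidt ℝ (f x) i, f x k⟫ /
        ‖gramSchmidt ℝ (f x) i‖ ^ 2) K := by
      apply ContinuousOn.div
      · exact ContinuousOn.inner (𝕜 := ℝ) hi' hfn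
      · exact hi'.norm.pow 2
      · intro x hx
        have := gramSchmidt_ne_zero (𝕜 := ℝ) i (hli x hx)
        positivity
    exact hc.smul hi'

theorem gsn_cont {n : ℕ} {X : Type*} [TopologicalSpace X] {K : Set X} (f : X → Fin n → V9)
    (hf : ContinuousOn f K) (hli : ∀ x ∈ K, LinearIndependent ℝ (f x)) :
    ContinuousOn (fun x => gramSchmidtNormed ℝ (f x)) K := by
  rw [continuousOn_pi]
  intro k
  unfold gramSchmidtNormed
  have h := gs_cont f hf hli k
  have hc : ContinuousOn (fun x => (‖gramSchmidt ℝ (f x) k‖ : ℝ)⁻¹) K := by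
    apply ContinuousOn.inv₀
    · exact (h.norm)
    · intro x hx
      have := gramSchmidt_ne_zero (𝕜 := ℝ) k (hli x hx)
      simpa using this
  exact hc.smul h

/-- The topological obstruction, for linearly independent frames. -/
theorem no_li_frames8 (f : ℝ × ℝ → Fin 8 → V9)
    (hf : ContinuousOn f (Set.Icc (0:ℝ) 1 ×ˢ Set.Icc (-1:ℝ) 1))
    (ho : ∀ x ∈ Set.Icc (0:ℝ) 1 ×ˢ Set.Icc (-1:ℝ) 1, LinearIndependent ℝ (f x))
    (h1 : ∀ θ ∈ Set.Icc (0:ℝ) 1, ∀ s ∈ Set.Icc (-1:ℝ) 0, ∀ i, f (θ, s + 1) i = ep i • f (θ, s) i)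
    (h2 : ∀ s ∈ Set.Icc (-1:ℝ) 1, ∀ i, f (1, -s) i = de i • f (0, s) i) : False := by
  refine no_frames8 (fun x => gramSchmidtNormed ℝ (f x)) (gsn_cont f hf ho)
    (fun x hx => gramSchmidtNormed_orthonormal (ho x hx)) ?_ ?_
  · intro θ hθ v hv i
    have : f (θ, v + 1) = fun i => ep i • f (θ, v) i := funext (h1 θ hθ v hv)
    simp only [this]
    exact gsn_sign _ _ ep_sq i
  · intro v hv i
    have : f (1, -v) = fun i => de i • f (0, v) i := funext (h2 v hv)
    simp only [this]
    exact gsn_sign _ _ de_sq i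

abbrev E2 := EuclideanSpace ℝ (Fin 2)

/-- linear part of the glide reflection of the plane -/
noncomputable def R2 : E2 →L[ℝ] E2 := LinearMap.toContinuousLinearMap
  { toFun := fun p => !₂[p 0, - p 1]
    map_add' := by
      intro p q; ext i; fin_cases i <;> simp; ring
    map_smul' := by
      intro c p; ext i; fin_cases i <;> simp }

/-- the glide reflection of the plane -/
noncomputable def gl2 (p : E2) : E2 := R2 p + EuclideanSpace.single 0 1

theorem R2_apply (p : E2) : R2 p = !₂[p 0, - p 1] := rfl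

theorem gl2_apply (p : E2) : gl2 p = !₂[p 0 + 1, - p 1] := by
  unfold gl2; rw [R2_apply]; ext i; fin_cases i <;> simp

/-- the first moving point -/
noncomputable def qP (x : ℝ × ℝ) : E2 :=
  !₂[x.1 + Real.cos (Real.pi * x.2) / 8, Real.sin (Real.pi * x.2) / 8]

/-- the second moving point -/
noncomputable def qQ (x : ℝ × ℝ) : E2 :=
  !₂[x.1 - Real.cos (Real.pi * x.2) / 8, - Real.sin (Real.pi * x.2) / 8]

theorem qP_cont : Continuous qP := by
  unfold qP
  refine (PiLp.continuous_toLp 2 _).comp ?_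
  refine continuous_pi ?_
  intro i
  fin_cases i <;> simp <;> fun_prop

theorem qQ_cont : Continuous qQ := by
  unfold qQ
  refine (PiLp.continuous_toLp 2 _).comp ?_
  refine continuous_pi ?_
  intro i
  fin_cases i <;> simp <;> fun_prop

theorem dist_qPQ (x : ℝ × ℝ) : dist (qP x) (qQ x) = 1 / 4 := by
  rw [EuclideanSpace.dist_eq]
  have h3 : ∑ i, dist (qP x i) (qQ x i) ^ 2 = (1/4) ^ 2 := by
    simp only [Fin.sum_univ_two, qP, qQ, Real.dist_eq, sq_abs]
    simp
    nlinarith [Real.sin_sq_add_cos_sq (Real.pi * x.2)]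
  rw [h3, Real.sqrt_sq (by norm_num)]

/-- zero padding `ℝᴺ → ℝ⁹` -/
noncomputable def pad (N : ℕ) : EuclideanSpace ℝ (Fin N) →L[ℝ] V9 := LinearMap.toContinuousLinearMap
  { toFun := fun p => WithLp.toLp 2 (fun k : Fin 9 => if h : (k : ℕ) < N then p ⟨k, h⟩ else 0)
    map_add' := by
      intro p q; ext k
      simp only [PiLp.add_apply]
      split <;> simp
    map_smul' := by
      intro c p; ext k
      simp only [PiLp.smul_apply, RingHom.id_apply]
      split <;> simp }

theorem pad_apply (N : ℕ) (p : EuclideanSpace ℝ (Fin N)) (k : Fin 9) :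
    pad N p k = if h : (k : ℕ) < N then p ⟨k, h⟩ else 0 := rfl

theorem pad_inj {N : ℕ} (hN : N ≤ 6) (p : EuclideanSpace ℝ (Fin N)) (h : pad N p = 0) : p = 0 := by
  ext k
  have h1 := congrArg (fun v : V9 => v ⟨k, by omega⟩) h
  simp only [pad_apply] at h1
  simpa using h1

/-- The obstruction on the Moebius band. -/
theorem no_TS8 {N : ℕ} (hN : N ≤ 6) (F : E2 → EuclideanSpace ℝ (Fin N)) (hF : ContDiff ℝ 1 F)
    (hg : ∀ p, F (gl2 p) = F p)
    (hTS : ∀ p q : E2, dist p q = 1 / 4 → ∀ (a b : E2) (t : ℝ),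
      t • (F p - F q) + fderiv ℝ F p a = fderiv ℝ F q b → t = 0 ∧ a = 0 ∧ b = 0) : False := by
  have hdiff : Differentiable ℝ F := hF.differentiable one_ne_zero
  have hDc : Continuous (fderiv ℝ F) := hF.continuous_fderiv one_ne_zero
  -- derivative relation
  have hD : ∀ p v, fderiv ℝ F (gl2 p) (R2 v) = fderiv ℝ F p v := by
    intro p v
    have h1 : HasFDerivAt gl2 R2 p := by
      unfold gl2
      exact R2.hasFDerivAt.add_const _
    have h2 : HasFDerivAt (F ∘ gl2) ((fderiv ℝ F (gl2 p)).comp R2) p :=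
      (hdiff (gl2 p)).hasFDerivAt.comp p h1
    have h3 : F ∘ gl2 = F := funext hg
    rw [h3] at h2
    have h4 := h2.fderiv
    rw [h4]; rfl
  let e : Fin 2 → E2 := fun i => EuclideanSpace.single i 1
  have hR0 : R2 (e 0) = e 0 := by
    rw [R2_apply]; ext i; fin_cases i <;> simp [e]
  have hR1 : R2 (e 1) = - e 1 := by
    rw [R2_apply]; ext i; fin_cases i <;> simp [e]
  have hD0 : ∀ p, fderiv ℝ F (gl2 p) (e 0) = fderiv ℝ F p (e 0) := by
    intro p; rw [← hD p, hR0]
  have hD1 : ∀ p, fderiv ℝ F (gl2 p) (e 1) = - fderiv ℝ F p (e 1) := by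
    intro p; rw [← hD p, hR1, map_neg, neg_neg]
  let A : Fin 2 → ℝ × ℝ → EuclideanSpace ℝ (Fin N) := fun i x => fderiv ℝ F (qP x) (e i)
  let B : Fin 2 → ℝ × ℝ → EuclideanSpace ℝ (Fin N) := fun i x => fderiv ℝ F (qQ x) (e i)
  let d : ℝ × ℝ → EuclideanSpace ℝ (Fin N) := fun x => F (qP x) - F (qQ x)
  let u : Fin 9 → V9 := fun i => EuclideanSpace.single i 1
  let f : ℝ × ℝ → Fin 8 → V9 := fun x =>
    ![pad N (A 0 x + B 0 x), pad N (A 1 x + B 1 x), pad N (A 0 x - B 0 x), pad N (A 1 x - B 1 x),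
      pad N (d x), u 6, u 7, u 8]
  have hAc : ∀ i, Continuous (A i) := by
    intro i
    exact (hDc.comp qP_cont).clm_apply continuous_const
  have hBc : ∀ i, Continuous (B i) := by
    intro i
    exact (hDc.comp qQ_cont).clm_apply continuous_const
  have hdc : Continuous d := (hF.continuous.comp qP_cont).sub (hF.continuous.comp qQ_cont)
  refine no_li_frames8 f ?_ ?_ ?_ ?_
  · apply Continuous.continuousOn
    refine continuous_pi ?_
    intro i
    fin_cases i
    · exact (pad N).continuous.comp ((hAc 0).add (hBc 0))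
    · exact (pad N).continuous.comp ((hAc 1).add (hBc 1))
    · exact (pad N).continuous.comp ((hAc 0).sub (hBc 0))
    · exact (pad N).continuous.comp ((hAc 1).sub (hBc 1))
    · exact (pad N).continuous.comp hdc
    · exact continuous_const
    · exact continuous_const
    · exact continuous_const
  · rintro x -
    rw [Fintype.linearIndependent_iff]
    intro c hc
    rw [Fin.sum_univ_eight] at hc
    have hc' : c 0 • pad N (A 0 x + B 0 x) + c 1 • pad N (A 1 x + B 1 x) +
        c 2 • pad N (A 0 x - B 0 x) + c 3 • pad N (A 1 x - B 1 x) + c 4 • pad N (d x) +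
        c 5 • u 6 + c 6 • u 7 + c 7 • u 8 = 0 := hc
    have hc2 : pad N (c 0 • (A 0 x + B 0 x) + c 1 • (A 1 x + B 1 x) +
        c 2 • (A 0 x - B 0 x) + c 3 • (A 1 x - B 1 x) + c 4 • d x) +
        c 5 • u 6 + c 6 • u 7 + c 7 • u 8 = 0 := by
      simpa only [map_add, map_smul] using hc'
    have h5 : c 5 = 0 := by
      have := congrArg (fun v : V9 => v 6) hc2
      simp only [PiLp.add_apply, PiLp.smul_apply, pad_apply, u] at this
      rw [dif_neg (by simp; omega)] at this
      simpa using this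
    have h6 : c 6 = 0 := by
      have := congrArg (fun v : V9 => v 7) hc2
      simp only [PiLp.add_apply, PiLp.smul_apply, pad_apply, u] at this
      rw [dif_neg (by simp; omega)] at this
      simpa using this
    have h7 : c 7 = 0 := by
      have := congrArg (fun v : V9 => v 8) hc2
      simp only [PiLp.add_apply, PiLp.smul_apply, pad_apply, u] at this
      rw [dif_neg (by simp; omega)] at this
      simpa using this
    rw [h5, h6, h7, zero_smul, zero_smul, zero_smul, add_zero, add_zero, add_zero] at hc2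
    have hc3 := pad_inj hN _ hc2
    let a : E2 := (c 0 + c 2) • e 0 + (c 1 + c 3) • e 1
    let b : E2 := (c 2 - c 0) • e 0 + (c 3 - c 1) • e 1
    have key := hTS (qP x) (qQ x) (dist_qPQ x) a b (c 4) (by
      have ea : fderiv ℝ F (qP x) a = (c 0 + c 2) • A 0 x + (c 1 + c 3) • A 1 x := by
        simp only [a, A, map_add, map_smul]
      have eb : fderiv ℝ F (qQ x) b = (c 2 - c 0) • B 0 x + (c 3 - c 1) • B 1 x := by
        simp only [b, B, map_add, map_smul]
      rw [ea, eb, ← sub_eq_zero, ← hc3]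
      simp only [d]
      module)
    obtain ⟨h4, ha, hb⟩ := key
    have ha0 := congrArg (fun p : E2 => p 0) ha
    have ha1 := congrArg (fun p : E2 => p 1) ha
    have hb0 := congrArg (fun p : E2 => p 0) hb
    have hb1 := congrArg (fun p : E2 => p 1) hb
    simp [a, b, e] at ha0 ha1 hb0 hb1
    intro i
    fin_cases i
    · show c 0 = 0; linarith
    · show c 1 = 0; linarith
    · show c 2 = 0; linarith
    · show c 3 = 0; linarith
    · exact h4
    · exact h5
    · exact h6
    · exact h7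
  · intro θ _ v _ i
    have hs : Real.sin (Real.pi * (v + 1)) = - Real.sin (Real.pi * v) := by
      rw [mul_add, mul_one, Real.sin_add_pi]
    have hc : Real.cos (Real.pi * (v + 1)) = - Real.cos (Real.pi * v) := by
      rw [mul_add, mul_one, Real.cos_add_pi]
    have hP : qP (θ, v + 1) = qQ (θ, v) := by
      unfold qP qQ
      ext j; fin_cases j <;> simp [hs, hc] <;> ring
    have hQ : qQ (θ, v + 1) = qP (θ, v) := by
      unfold qP qQ
      ext j; fin_cases j <;> simp [hs, hc] <;> ring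
    have hA : ∀ j, A j (θ, v + 1) = B j (θ, v) := by
      intro j; simp only [A, B, hP]
    have hB : ∀ j, B j (θ, v + 1) = A j (θ, v) := by
      intro j; simp only [A, B, hQ]
    have hd : d (θ, v + 1) = - d (θ, v) := by
      simp only [d, hP, hQ]; abel
    fin_cases i
    · show pad N (A 0 (θ, v + 1) + B 0 (θ, v + 1)) = (1:ℝ) • pad N (A 0 (θ, v) + B 0 (θ, v))
      rw [hA, hB, one_smul, add_comm]
    · show pad N (A 1 (θ, v + 1) + B 1 (θ, v + 1)) = (1:ℝ) • pad N (A 1 (θ, v) + B 1 (θ, v))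
      rw [hA, hB, one_smul, add_comm]
    · show pad N (A 0 (θ, v + 1) - B 0 (θ, v + 1)) = (-1:ℝ) • pad N (A 0 (θ, v) - B 0 (θ, v))
      rw [hA, hB, neg_one_smul, ← map_neg, neg_sub]
    · show pad N (A 1 (θ, v + 1) - B 1 (θ, v + 1)) = (-1:ℝ) • pad N (A 1 (θ, v) - B 1 (θ, v))
      rw [hA, hB, neg_one_smul, ← map_neg, neg_sub]
    · show pad N (d (θ, v + 1)) = (-1:ℝ) • pad N (d (θ, v))
      rw [hd, neg_one_smul, map_neg]
    · show u 6 = (1:ℝ) • u 6
      rw [one_smul]
    · show u 7 = (1:ℝ) • u 7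
      rw [one_smul]
    · show u 8 = (1:ℝ) • u 8
      rw [one_smul]
  · intro v _ i
    have hs : Real.sin (Real.pi * (-v)) = - Real.sin (Real.pi * v) := by
      rw [mul_neg, Real.sin_neg]
    have hc : Real.cos (Real.pi * (-v)) = Real.cos (Real.pi * v) := by
      rw [mul_neg, Real.cos_neg]
    have hP : qP (1, -v) = gl2 (qP (0, v)) := by
      rw [gl2_apply]
      unfold qP
      ext j; fin_cases j <;> simp [hs, hc] <;> ring
    have hQ : qQ (1, -v) = gl2 (qQ (0, v)) := by
      rw [gl2_apply]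
      unfold qQ
      ext j; fin_cases j <;> simp [hs, hc] <;> ring
    have hA0 : A 0 (1, -v) = A 0 (0, v) := by simp only [A, hP, hD0]
    have hA1 : A 1 (1, -v) = - A 1 (0, v) := by simp only [A, hP, hD1]
    have hB0 : B 0 (1, -v) = B 0 (0, v) := by simp only [B, hQ, hD0]
    have hB1 : B 1 (1, -v) = - B 1 (0, v) := by simp only [B, hQ, hD1]
    have hd : d (1, -v) = d (0, v) := by
      simp only [d, hP, hQ, hg]
    fin_cases i
    · show pad N (A 0 (1, -v) + B 0 (1, -v)) = (1:ℝ) • pad N (A 0 (0, v) + B 0 (0, v))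
      rw [hA0, hB0, one_smul]
    · show pad N (A 1 (1, -v) + B 1 (1, -v)) = (-1:ℝ) • pad N (A 1 (0, v) + B 1 (0, v))
      rw [hA1, hB1, neg_one_smul, ← neg_add, map_neg]
    · show pad N (A 0 (1, -v) - B 0 (1, -v)) = (1:ℝ) • pad N (A 0 (0, v) - B 0 (0, v))
      rw [hA0, hB0, one_smul]
    · show pad N (A 1 (1, -v) - B 1 (1, -v)) = (-1:ℝ) • pad N (A 1 (0, v) - B 1 (0, v))
      rw [hA1, hB1, neg_one_smul, ← neg_sub', map_neg]
    · show pad N (d (1, -v)) = (1:ℝ) • pad N (d (0, v))
      rw [hd, one_smul]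
    · show u 6 = (1:ℝ) • u 6
      rw [one_smul]
    · show u 7 = (1:ℝ) • u 7
      rw [one_smul]
    · show u 8 = (1:ℝ) • u 8
      rw [one_smul]

end Pool.Agent.H80R3.Mob
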