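import Pool.Agent.H73W.Frames

set_option autoImplicit false

namespace Pool.Agent.H80R3.Mob

open Pool.Agent.H73W InnerProductSpace
open scoped RealInnerProductSpace

/-- intertwiner between two systems of eight -/
noncomputable def tw8 (a b : Fin 8 → Alg) : Alg :=
  stp (a 7) (b 7) (tw (fun i => a i.castSucc) (fun i => b i.castSucc))

theorem isCl_castSucc {a : Fin 8 → Alg} (ha : IsCl a) : IsCl (fun i : Fin 7 => a i.castSucc) where
  sq _ := ha.sq _
  anti _ _ hij := ha.anti _ _ (fun h => hij (Fin.castSucc_injective 7 h))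

theorem tw8_intertwine {a b : Fin 8 → Alg} (ha : IsCl a) (hb : IsCl b) (i : Fin 8) :
    a i * tw8 a b = tw8 a b * b i := by
  unfold tw8
  induction i using Fin.lastCases with
  | last => exact stp_self (ha.sq _) (hb.sq _)
  | cast i =>
    have hne : i.castSucc ≠ (7 : Fin 8) := (Fin.castSucc_lt_last i).ne
    exact stp_other (ha.anti _ _ hne) (hb.anti _ _ hne)
      (tw_intertwine (isCl_castSucc ha) (isCl_castSucc hb) i)

theorem tw8_self {a : Fin 8 → Alg} (ha : IsCl a) : tw8 a a = (256 : ℝ) • (1 : Alg) := by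
  unfold tw8
  rw [tw_self (isCl_castSucc ha)]
  unfold stp
  rw [mul_smul_comm, mul_one, smul_mul_assoc, ha.sq, ← add_smul]
  norm_num

theorem tw8_continuous : Continuous (fun p : (Fin 8 → Alg) × (Fin 8 → Alg) => tw8 p.1 p.2) := by
  unfold tw8 stp
  have h := tw_continuous
  have h1 : Continuous (fun p : (Fin 8 → Alg) × (Fin 8 → Alg) =>
      ((fun i : Fin 7 => p.1 i.castSucc), (fun i : Fin 7 => p.2 i.castSucc))) := by fun_prop
  have h2 := h.comp h1
  have h3 : Continuous (fun p : (Fin 8 → Alg) × (Fin 8 → Alg) => p.1 7) := by fun_prop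
  have h4 : Continuous (fun p : (Fin 8 → Alg) × (Fin 8 → Alg) => p.2 7) := by fun_prop
  exact h2.add ((h3.mul h2).mul h4)

attribute [irreducible] tw8

/-- A continuous family of Clifford systems on a compact star-shaped set is conjugate to the
constant one. -/
theorem exists_lift8 {X : Type*} [NormedAddCommGroup X] [NormedSpace ℝ X]
    {K : Set X} (hKc : IsCompact K) (hK0 : (0 : X) ∈ K)
    (hK : ∀ x ∈ K, ∀ t ∈ Set.Icc (0:ℝ) 1, t • x ∈ K)
    (Γ : X → Fin 8 → Alg) (hΓ : ContinuousOn Γ K) (hcl : ∀ x ∈ K, IsCl (Γ x)) :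
    ∃ G : X → Alg, ContinuousOn G K ∧ ∀ x ∈ K, ((G x).det ≠ 0 ∧ ∀ i, Γ x i * G x = G x * Γ 0 i) := by
  obtain ⟨R, hR⟩ := hKc.isBounded.exists_norm_le
  have htw := tw8_continuous
  have hD : ContinuousOn (fun p : X × X => (tw8 (Γ p.1) (Γ p.2)).det) (K ×ˢ K) := by
    have h1 : ContinuousOn (fun p : X × X => Γ p.1) (K ×ˢ K) :=
      hΓ.comp continuousOn_fst (fun p hp => hp.1)
    have h2 : ContinuousOn (fun p : X × X => Γ p.2) (K ×ˢ K) :=
      hΓ.comp continuousOn_snd (fun p hp => hp.2)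
    have h5 : ContinuousOn (fun p : X × X => tw8 (Γ p.1) (Γ p.2)) (K ×ˢ K) :=
      htw.comp_continuousOn (h1.prodMk h2)
    exact det_continuousOn h5
  have hunif := (hKc.prod hKc).uniformContinuousOn_of_continuous hD
  rw [Metric.uniformContinuousOn_iff] at hunif
  obtain ⟨δ, hδ, hδ2⟩ := hunif 1 one_pos
  have hdiag : ∀ x ∈ K, (1:ℝ) ≤ (tw8 (Γ x) (Γ x)).det := by
    intro x hx
    rw [tw8_self (hcl x hx), Matrix.det_smul, Matrix.det_one, mul_one]
    norm_num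
  have hpos : ∀ x ∈ K, ∀ y ∈ K, dist x y < δ → (tw8 (Γ x) (Γ y)).det ≠ 0 := by
    intro x hx y hy hxy
    have h1 := hδ2 (x, y) ⟨hx, hy⟩ (x, x) ⟨hx, hx⟩ (by
      rw [Prod.dist_eq]; simp only [dist_self]; rw [dist_comm]; simpa [hδ] using hxy)
    rw [Real.dist_eq, abs_lt] at h1
    have h2 := hdiag x hx
    simp only at h1
    intro h3
    rw [h3] at h1
    linarith [h1.1]
  refine ray hK hR hδ (fun x y s => tw8 (Γ x) (Γ y) * s) ?_
    (fun x s => s.det ≠ 0 ∧ ∀ i, Γ x i * s = s * Γ 0 i) 1 ?_ ?_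
  · have h1 : ContinuousOn (fun p : (X × X) × Alg => Γ p.1.1)
        {p | p.1.1 ∈ K ∧ p.1.2 ∈ K ∧ dist p.1.1 p.1.2 < δ} :=
      hΓ.comp (continuous_fst.comp continuous_fst).continuousOn (fun p hp => hp.1)
    have h2 : ContinuousOn (fun p : (X × X) × Alg => Γ p.1.2)
        {p | p.1.1 ∈ K ∧ p.1.2 ∈ K ∧ dist p.1.1 p.1.2 < δ} :=
      hΓ.comp (continuous_snd.comp continuous_fst).continuousOn (fun p hp => hp.2.1)
    have h3 : ContinuousOn (fun p : (X × X) × Alg => tw8 (Γ p.1.1) (Γ p.1.2))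
        {p | p.1.1 ∈ K ∧ p.1.2 ∈ K ∧ dist p.1.1 p.1.2 < δ} :=
      htw.comp_continuousOn (h1.prodMk h2)
    exact h3.mul continuousOn_snd
  · simp
  · intro x hx y hy hxy s hs
    refine ⟨?_, ?_⟩
    · rw [Matrix.det_mul]
      exact mul_ne_zero (hpos x hx y hy hxy) hs.1
    · intro i
      rw [← mul_assoc, tw8_intertwine (hcl x hx) (hcl y hy), mul_assoc, hs.2, mul_assoc]

/-- the commutant of eight anticommuting Clifford elements is scalar -/
theorem commutant_eight {w : Fin 8 → V9} (hw : Orthonormal ℝ w) {X : Alg}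
    (hX : ∀ i, cl (w i) * X = X * cl (w i)) : ∃ c : ℝ, X = c • (1 : Alg) := by
  have hw7 : Orthonormal ℝ (fun i : Fin 7 => w i.castSucc) := hw.comp _ (Fin.castSucc_injective 7)
  obtain ⟨c, d, hcd⟩ := commutant_seven hw7 (fun i => hX i.castSucc)
  refine ⟨c, ?_⟩
  set g : Fin 7 → Alg := fun i => cl (w i.castSucc) with hg
  have hcl8 : IsCl (fun i => cl (w i)) := isCl_of_orthonormal hw
  have ha : ∀ i, cl (w 7) * g i = - (g i * cl (w 7)) := fun i =>
    hcl8.anti 7 i.castSucc (Fin.castSucc_lt_last i).ne'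
  have hJ := J7_anti ha
  have hJJ := J7_sq (isCl_of_orthonormal hw7)
  have h7 := hX 7
  have hsq : cl (w 7) * cl (w 7) = 1 := hcl8.sq 7
  have hd : d = 0 := by
    by_contra hd
    rw [hcd] at h7
    rw [mul_add, add_mul, mul_smul_comm, mul_smul_comm, smul_mul_assoc, smul_mul_assoc, mul_one,
      one_mul] at h7
    have h8 : d • (cl (w 7) * J7 g) = d • (J7 g * cl (w 7)) := add_left_cancel h7
    have h9 : cl (w 7) * J7 g = J7 g * cl (w 7) := smul_right_injective _ hd h8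
    rw [hJ] at h9
    have h10 : J7 g * cl (w 7) = 0 := by
      have h11 : (2 : ℝ) • (J7 g * cl (w 7)) = 0 := by
        rw [two_smul]
        nth_rewrite 1 [← h9]
        simp
      exact (smul_eq_zero.mp h11).resolve_left two_ne_zero
    have h12 : (1 : Alg) = 0 := by
      calc (1 : Alg) = -(J7 g * J7 g) := by rw [hJJ]; simp
        _ = -(J7 g * (J7 g * (cl (w 7) * cl (w 7)))) := by rw [hsq, mul_one]
        _ = -(J7 g * ((J7 g * cl (w 7)) * cl (w 7))) := by simp only [mul_assoc]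
        _ = 0 := by rw [h10]; simp
    exact one_ne_zero h12
  rw [hcd, hd, zero_smul, add_zero]

/-- signs under the antipodal map -/
def ep : Fin 8 → ℝ := ![1, 1, -1, -1, -1, 1, 1, 1]
/-- signs under the glide reflection -/
def de : Fin 8 → ℝ := ![1, -1, 1, -1, 1, 1, 1, 1]

theorem ep_sq (i : Fin 8) : ep i * ep i = 1 := by fin_cases i <;> simp [ep]
theorem de_sq (i : Fin 8) : de i * de i = 1 := by fin_cases i <;> simp [de]

theorem exists_Q8 {g : Fin 8 → Alg} (hg : IsCl g) : ∃ Q1 Q2 : Alg,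
    (∀ i, SC (ep i) (g i) Q1) ∧ (∀ i, SC (de i) (g i) Q2) ∧ Q1 * Q1 = 1 ∧ Q2 * Q2 = -1 ∧
    Q1 * Q2 = -(Q2 * Q1) := by
  have h02 : ∀ i j, i ≠ j → SC (-1) (g i) (g j) := fun i j hij => hg.scn i j hij
  refine ⟨g 0 * (g 1 * (g 5 * (g 6 * g 7))), g 1 * g 3, ?_, ?_, ?_, ?_, ?_⟩
  · intro i
    have h1 := (hg.sc i 0).mul ((hg.sc i 1).mul ((hg.sc i 5).mul ((hg.sc i 6).mul (hg.sc i 7))))
    have h2 : ((if i = 0 then 1 else -1) * ((if i = 1 then 1 else -1) * ((if i = 5 then 1 else -1) *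
      ((if i = 6 then 1 else -1) * (if i = 7 then 1 else -1)))) : ℝ) = ep i := by
      fin_cases i <;> simp [ep]
    rwa [h2] at h1
  · intro i
    have h1 := (hg.sc i 1).mul (hg.sc i 3)
    have h2 : ((if i = 1 then 1 else -1) * (if i = 3 then 1 else -1) : ℝ) = de i := by
      fin_cases i <;> simp [de]
    rwa [h2] at h1
  · have s0 : SC 1 (g 0) (g 1 * (g 5 * (g 6 * g 7))) := by
      have := (h02 0 1 (by decide)).mul ((h02 0 5 (by decide)).mul ((h02 0 6 (by decide)).mul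
        (h02 0 7 (by decide))))
      norm_num at this
      exact this
    have s1 : SC (-1) (g 1) (g 5 * (g 6 * g 7)) := by
      have := (h02 1 5 (by decide)).mul ((h02 1 6 (by decide)).mul (h02 1 7 (by decide)))
      norm_num at this
      exact this
    have s5 : SC 1 (g 5) (g 6 * g 7) := by
      have := (h02 5 6 (by decide)).mul (h02 5 7 (by decide))
      norm_num at this
      exact this
    have s6 : SC (-1) (g 6) (g 7) := h02 6 7 (by decide)
    unfold SC at s0 s1 s5 s6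
    rw [one_smul] at s0 s5
    rw [neg_one_smul] at s1 s6
    have q6 : (g 6 * g 7) * (g 6 * g 7) = -1 := by
      calc (g 6 * g 7) * (g 6 * g 7) = g 6 * g 7 * g 6 * g 7 := by simp only [mul_assoc]
        _ = -(g 7 * g 6) * g 6 * g 7 := by rw [s6]
        _ = -(g 7 * (g 6 * g 6) * g 7) := by simp only [mul_assoc, neg_mul]
        _ = -1 := by rw [hg.sq, mul_one, hg.sq]
    have q5 : (g 5 * (g 6 * g 7)) * (g 5 * (g 6 * g 7)) = -1 := by
      calc (g 5 * (g 6 * g 7)) * (g 5 * (g 6 * g 7)) =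
            (g 6 * g 7) * g 5 * (g 5 * (g 6 * g 7)) := by rw [s5]
        _ = (g 6 * g 7) * (g 5 * g 5) * (g 6 * g 7) := by simp only [mul_assoc]
        _ = -1 := by rw [hg.sq, mul_one, q6]
    have q1 : (g 1 * (g 5 * (g 6 * g 7))) * (g 1 * (g 5 * (g 6 * g 7))) = 1 := by
      calc (g 1 * (g 5 * (g 6 * g 7))) * (g 1 * (g 5 * (g 6 * g 7))) =
            -((g 5 * (g 6 * g 7)) * g 1) * (g 1 * (g 5 * (g 6 * g 7))) := by rw [s1]
        _ = -((g 5 * (g 6 * g 7)) * (g 1 * g 1) * (g 5 * (g 6 * g 7))) := by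
            simp only [mul_assoc, neg_mul]
        _ = 1 := by rw [hg.sq, mul_one, q5, neg_neg]
    calc (g 0 * (g 1 * (g 5 * (g 6 * g 7)))) * (g 0 * (g 1 * (g 5 * (g 6 * g 7)))) =
          ((g 1 * (g 5 * (g 6 * g 7))) * g 0) * (g 0 * (g 1 * (g 5 * (g 6 * g 7)))) := by rw [s0]
      _ = (g 1 * (g 5 * (g 6 * g 7))) * (g 0 * g 0) * (g 1 * (g 5 * (g 6 * g 7))) := by
          simp only [mul_assoc]
      _ = 1 := by rw [hg.sq, mul_one, q1]
  · have s : SC (-1) (g 1) (g 3) := h02 1 3 (by decide)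
    unfold SC at s
    rw [neg_one_smul] at s
    calc (g 1 * g 3) * (g 1 * g 3) = g 1 * g 3 * g 1 * g 3 := by simp only [mul_assoc]
      _ = -(g 3 * g 1) * g 1 * g 3 := by rw [s]
      _ = -(g 3 * (g 1 * g 1) * g 3) := by simp only [mul_assoc, neg_mul]
      _ = -1 := by rw [hg.sq, mul_one, hg.sq]
  · have a1 : SC 1 (g 1) (g 0 * (g 1 * (g 5 * (g 6 * g 7)))) := by
      have := (h02 1 0 (by decide)).mul ((hg.scs 1).mul ((h02 1 5 (by decide)).mul
        ((h02 1 6 (by decide)).mul (h02 1 7 (by decide)))))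
      norm_num at this
      exact this
    have a3 : SC (-1) (g 3) (g 0 * (g 1 * (g 5 * (g 6 * g 7)))) := by
      have := (h02 3 0 (by decide)).mul ((h02 3 1 (by decide)).mul ((h02 3 5 (by decide)).mul
        ((h02 3 6 (by decide)).mul (h02 3 7 (by decide)))))
      norm_num at this
      exact this
    unfold SC at a1 a3
    rw [one_smul] at a1
    rw [neg_one_smul] at a3
    generalize g 0 * (g 1 * (g 5 * (g 6 * g 7))) = Q at a1 a3
    calc Q * (g 1 * g 3) = (Q * g 1) * g 3 := (mul_assoc _ _ _).symm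
      _ = (g 1 * Q) * g 3 := by rw [a1]
      _ = g 1 * (Q * g 3) := mul_assoc _ _ _
      _ = g 1 * (-(g 3 * Q)) := by rw [a3, neg_neg]
      _ = -(g 1 * g 3 * Q) := by rw [mul_neg, mul_assoc]

theorem same_sign {f : ℝ → ℝ} (hf : ContinuousOn f (Set.Icc 0 1))
    (h0 : ∀ t ∈ Set.Icc (0:ℝ) 1, f t ≠ 0) : 0 < f 0 * f 1 := by
  have m0 : (0:ℝ) ∈ Set.Icc (0:ℝ) 1 := by simp
  have m1 : (1:ℝ) ∈ Set.Icc (0:ℝ) 1 := by simp
  by_contra hcon
  have hlt : f 0 * f 1 < 0 := lt_of_le_of_ne (not_lt.mp hcon) (mul_ne_zero (h0 0 m0) (h0 1 m1))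
  have hpc : IsPreconnected (f '' Set.Icc 0 1) := isPreconnected_Icc.image f hf
  have hord : (f '' Set.Icc 0 1).OrdConnected := hpc.ordConnected
  have i0 : f 0 ∈ f '' Set.Icc 0 1 := ⟨0, m0, rfl⟩
  have i1 : f 1 ∈ f '' Set.Icc 0 1 := ⟨1, m1, rfl⟩
  have hz : (0:ℝ) ∈ f '' Set.Icc 0 1 := by
    rcases mul_neg_iff.mp hlt with ⟨h, h'⟩ | ⟨h, h'⟩
    · exact hord.out i1 i0 ⟨h'.le, h.le⟩
    · exact hord.out i0 i1 ⟨h.le, h'.le⟩
  obtain ⟨t, ht, ht0⟩ := hz
  exact h0 t ht ht0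

/-- The main topological obstruction, for orthonormal frames. -/
theorem no_frames8 (w : ℝ × ℝ → Fin 8 → V9)
    (hw : ContinuousOn w (Set.Icc (0:ℝ) 1 ×ˢ Set.Icc (-1:ℝ) 1))
    (ho : ∀ x ∈ Set.Icc (0:ℝ) 1 ×ˢ Set.Icc (-1:ℝ) 1, Orthonormal ℝ (w x))
    (h1 : ∀ θ ∈ Set.Icc (0:ℝ) 1, ∀ s ∈ Set.Icc (-1:ℝ) 0, ∀ i, w (θ, s + 1) i = ep i • w (θ, s) i)
    (h2 : ∀ s ∈ Set.Icc (-1:ℝ) 1, ∀ i, w (1, -s) i = de i • w (0, s) i) : False := by
  set K := Set.Icc (0:ℝ) 1 ×ˢ Set.Icc (-1:ℝ) 1 with hKdef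
  have hKc : IsCompact K := isCompact_Icc.prod isCompact_Icc
  have hI0 : (0:ℝ) ∈ Set.Icc (0:ℝ) 1 := by simp
  have hI1 : (1:ℝ) ∈ Set.Icc (0:ℝ) 1 := by simp
  have hKs : ∀ x ∈ K, ∀ t ∈ Set.Icc (0:ℝ) 1, t • x ∈ K := by
    rintro ⟨a, b⟩ ⟨ha, hb⟩ t ht
    simp only at ha hb
    refine ⟨⟨mul_nonneg ht.1 ha.1, mul_le_one₀ ht.2 ha.1 ha.2⟩, ?_⟩
    show t * b ∈ Set.Icc (-1:ℝ) 1
    obtain ⟨t0, t1⟩ := ht
    obtain ⟨b0, b1⟩ := hb
    constructor <;> nlinarith
  have hK0 : (0 : ℝ × ℝ) ∈ K := by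
    refine ⟨by simp, by simp⟩
  set Γ : ℝ × ℝ → Fin 8 → Alg := fun x i => cl (w x i) with hΓ
  have hΓc : ContinuousOn Γ K := by
    rw [continuousOn_pi]
    intro i
    exact cl_continuous.comp_continuousOn ((continuousOn_pi.mp hw) i)
  have hΓcl : ∀ x ∈ K, IsCl (Γ x) := fun x hx => isCl_of_orthonormal (ho x hx)
  obtain ⟨G, hG, hG2⟩ := exists_lift8 hKc hK0 hKs Γ hΓc hΓcl
  set g := Γ 0 with hg
  have hgcl : IsCl g := hΓcl 0 hK0
  obtain ⟨Q1, Q2, hQ1, hQ2, hQ11, hQ22, hQ12⟩ := exists_Q8 hgcl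
  -- inverse facts
  have hGu : ∀ x ∈ K, IsUnit (G x).det := fun x hx => (hG2 x hx).1.isUnit
  have hinv : ∀ x ∈ K, (G x)⁻¹ * G x = 1 := fun x hx => Matrix.nonsing_inv_mul _ (hGu x hx)
  have hinv' : ∀ x ∈ K, G x * (G x)⁻¹ = 1 := fun x hx => Matrix.mul_nonsing_inv _ (hGu x hx)
  -- general transition computation
  have trans : ∀ x ∈ K, ∀ y ∈ K, ∀ s : Fin 8 → ℝ, (∀ i, s i * s i = 1) →
      (∀ i, w y i = s i • w x i) → ∀ i, SC (s i) (g i) ((G x)⁻¹ * G y) := by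
    intro x hx y hy s hs hxy i
    have e1 : Γ x i = s i • Γ y i := by
      simp only [hΓ]
      rw [hxy, map_smul, smul_smul, hs, one_smul]
    have e2 : g i * (G x)⁻¹ = (G x)⁻¹ * Γ x i := by
      calc g i * (G x)⁻¹ = (G x)⁻¹ * G x * g i * (G x)⁻¹ := by rw [hinv x hx, one_mul]
        _ = (G x)⁻¹ * (G x * g i) * (G x)⁻¹ := by simp only [mul_assoc]
        _ = (G x)⁻¹ * (Γ x i * G x) * (G x)⁻¹ := by rw [(hG2 x hx).2 i]
        _ = (G x)⁻¹ * Γ x i * (G x * (G x)⁻¹) := by simp only [mul_assoc]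
        _ = _ := by rw [hinv' x hx, mul_one]
    unfold SC
    calc g i * ((G x)⁻¹ * G y) = (g i * (G x)⁻¹) * G y := by rw [mul_assoc]
      _ = (G x)⁻¹ * (s i • Γ y i) * G y := by rw [e2, e1]
      _ = s i • ((G x)⁻¹ * (Γ y i * G y)) := by
        rw [mul_smul_comm, smul_mul_assoc, mul_assoc]
      _ = s i • ((G x)⁻¹ * G y * g i) := by rw [(hG2 y hy).2 i, mul_assoc]
  -- the transition element is a non-zero multiple of `Q`
  have scal : ∀ x ∈ K, ∀ y ∈ K, ∀ (s : Fin 8 → ℝ) (Q : Alg) (r : ℝ), (∀ i, s i * s i = 1) →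
      (∀ i, SC (s i) (g i) Q) → Q * Q = r • 1 → r * r = 1 →
      (∀ i, w y i = s i • w x i) →
      G y = (r * ((G x)⁻¹ * G y * Q) 0 0) • (G x * Q) ∧ ((G x)⁻¹ * G y * Q) 0 0 ≠ 0 := by
    intro x hx y hy s Q r hs hQ hQQ hr hxy
    have h3 := trans x hx y hy s hs hxy
    obtain ⟨c, hc⟩ := commutant_eight (ho 0 hK0) (X := (G x)⁻¹ * G y * Q) (by
      intro i
      have e2 := (h3 i).mul (hQ i)
      rw [hs, SC, one_smul] at e2
      exact e2)
    have hc0 : ((G x)⁻¹ * G y * Q) 0 0 = c := by rw [hc]; simp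
    have hGy : G y = (r * c) • (G x * Q) := by
      calc G y = G x * (G x)⁻¹ * G y := by rw [hinv' x hx, one_mul]
        _ = G x * ((G x)⁻¹ * G y * (r • (Q * Q))) := by
            rw [hQQ, smul_smul, hr, one_smul, mul_one]; simp only [mul_assoc]
        _ = r • (G x * (((G x)⁻¹ * G y * Q) * Q)) := by
            rw [mul_smul_comm, mul_smul_comm]; simp only [mul_assoc]
        _ = (r * c) • (G x * Q) := by
            rw [hc, smul_mul_assoc, one_mul, mul_smul_comm, smul_smul]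
    rw [hc0]
    refine ⟨hGy, ?_⟩
    intro h0
    have := (hG2 y hy).1
    rw [hGy, h0, mul_zero, zero_smul] at this
    simp at this
  have memθ : ∀ θ ∈ Set.Icc (0:ℝ) 1, ∀ v ∈ Set.Icc (-1:ℝ) 1, (θ, v) ∈ K := by
    intro θ hθ v hv
    exact ⟨hθ, hv⟩
  have hGinv : ContinuousOn (fun x => (G x)⁻¹) K := inv_continuousOn hG (fun x hx => (hG2 x hx).1)
  let a : ℝ × ℝ → ℝ := fun x => ((G x)⁻¹ * G (x.1, x.2 + 1) * Q1) 0 0
  let b : ℝ → ℝ := fun s => ((G (0, s))⁻¹ * G (1, -s) * Q2) 0 0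
  have hQ11' : Q1 * Q1 = (1:ℝ) • 1 := by rw [hQ11, one_smul]
  have hQ22' : Q2 * Q2 = (-1:ℝ) • 1 := by rw [hQ22, neg_one_smul]
  have ha : ∀ θ ∈ Set.Icc (0:ℝ) 1, ∀ s ∈ Set.Icc (-1:ℝ) 0,
      G (θ, s + 1) = a (θ, s) • (G (θ, s) * Q1) ∧ a (θ, s) ≠ 0 := by
    intro θ hθ s hs
    have := scal (θ, s) (memθ θ hθ s ⟨hs.1, hs.2.trans zero_le_one⟩) (θ, s + 1)
      (memθ θ hθ (s + 1) ⟨by linarith [hs.1], by linarith [hs.2]⟩) ep Q1 1 ep_sq hQ1 hQ11'
      (by norm_num) (h1 θ hθ s hs)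
    rw [one_mul] at this
    exact this
  have hb : ∀ s ∈ Set.Icc (-1:ℝ) 1,
      G (1, -s) = (-1 * b s) • (G (0, s) * Q2) ∧ b s ≠ 0 := by
    intro s hs
    exact scal (0, s) (memθ 0 hI0 s hs) (1, -s)
      (memθ 1 hI1 (-s) ⟨by linarith [hs.2], by linarith [hs.1]⟩) de Q2 (-1) de_sq hQ2 hQ22'
      (by norm_num) (h2 s hs)
  have entry : Continuous (fun X : Alg => X 0 0) := by fun_prop
  have sa : 0 < a (0, 0) * a (1, -1) := by
    have hc : ContinuousOn (fun t : ℝ => a (t, -t)) (Set.Icc 0 1) := by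
      apply entry.comp_continuousOn
      apply ContinuousOn.mul _ continuousOn_const
      apply ContinuousOn.mul
      · exact hGinv.comp (f := fun t : ℝ => (t, -t)) (by fun_prop)
          (fun t ht => memθ t ht _ ⟨by linarith [ht.2], by linarith [ht.1]⟩)
      · exact hG.comp (f := fun t : ℝ => (t, -t + 1)) (by fun_prop)
          (fun t ht => memθ t ht _ ⟨by linarith [ht.2], by linarith [ht.1]⟩)
    have := same_sign hc (fun t ht => (ha t ht (-t) ⟨by linarith [ht.2], by linarith [ht.1]⟩).2)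
    simpa using this
  have sb : 0 < b 0 * b 1 := by
    have hc : ContinuousOn b (Set.Icc 0 1) := by
      apply entry.comp_continuousOn
      apply ContinuousOn.mul _ continuousOn_const
      apply ContinuousOn.mul
      · exact hGinv.comp (f := fun t : ℝ => ((0:ℝ), t)) (by fun_prop)
          (fun t ht => memθ 0 hI0 _ ⟨by linarith [ht.1], ht.2⟩)
      · exact hG.comp (f := fun t : ℝ => ((1:ℝ), -t)) (by fun_prop)
          (fun t ht => memθ 1 hI1 _ ⟨by linarith [ht.2], by linarith [ht.1]⟩)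
    exact same_sign hc (fun t ht => (hb t ⟨by linarith [ht.1], ht.2⟩).2)
  -- the relations
  have r1 := (ha 0 hI0 0 (by simp)).1
  have r2 := (hb 1 (by simp)).1
  have r3 := (hb 0 (by simp)).1
  have r4 := (ha 1 hI1 (-1) (by simp)).1
  rw [zero_add] at r1
  rw [neg_zero] at r3
  rw [neg_add_cancel] at r4
  rw [r2, r1] at r4
  rw [r3] at r4
  -- r4 : (-1 * b 0) • (G (0,0) * Q2) = a (1,-1) • (((-1 * b 1) • ((a (0,0) • (G (0,0) * Q1)) * Q2)) * Q1)
  have e1 : (-1 * b 0) • (G (0, 0) * Q2) =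
      (a (1, -1) * b 1 * a (0, 0)) • (G (0, 0) * Q2) := by
    rw [r4]
    have e2 : Q1 * Q2 * Q1 = - Q2 := by
      rw [hQ12, neg_mul, mul_assoc, hQ11, mul_one]
    calc a (1, -1) • (((-1 * b 1) • ((a (0, 0) • (G (0, 0) * Q1)) * Q2)) * Q1)
        = (a (1, -1) * (-1 * b 1) * a (0, 0)) • (G (0, 0) * (Q1 * Q2 * Q1)) := by
          simp only [smul_mul_assoc, smul_smul, mul_assoc]
      _ = (a (1, -1) * b 1 * a (0, 0)) • (G (0, 0) * Q2) := by
          rw [e2, mul_neg, smul_neg, ← neg_smul]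
          congr 1
          ring
  have hne : G (0, 0) * Q2 ≠ 0 := by
    intro h0
    have h5 : G (0, 0) * (Q2 * Q2) = 0 := by rw [← mul_assoc, h0, zero_mul]
    rw [hQ22, mul_neg, mul_one, neg_eq_zero] at h5
    have := (hG2 (0, 0) (memθ 0 hI0 0 (by simp))).1
    rw [h5] at this
    simp at this
  have e3 : -1 * b 0 = a (1, -1) * b 1 * a (0, 0) := smul_left_injective ℝ hne e1
  have e4 : -(b 0 * b 1) = (a (0, 0) * a (1, -1)) * (b 1 * b 1) := by
    calc -(b 0 * b 1) = (-1 * b 0) * b 1 := by ring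
      _ = _ := by rw [e3]; ring
  have e5 : 0 ≤ (a (0, 0) * a (1, -1)) * (b 1 * b 1) := mul_nonneg sa.le (mul_self_nonneg _)
  linarith

end Pool.Agent.H80R3.Mob
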